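import Pool.Agent.W343.FZH.Spec

/-!
Project FZH, part E: eigenvalues of finite windows are in the spectra of periodic operators.
-/

set_option autoImplicit false

namespace Pool.Agent.W724.FZH

open Finset Pool.Agent.W681.FZ Pool.Agent.W343.FZH

/-- the window and its reversal, glued alternately -/
noncomputable def BE (c : ℕ → ℂ) (N : ℕ) : ℕ → ℂ := fun k =>
  if k % (N+2) = 0 then 1
  else if k % (N+2) = N + 1 then 1
  else cj c N (k / (N+2)) (k % (N+2) - 1)

theorem BE_pm {c : ℕ → ℂ} (hc : PM c) (N : ℕ) : PM (BE c N) := by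
  intro k
  unfold BE
  split_ifs
  · exact Or.inl rfl
  · exact Or.inl rfl
  · exact cj_pm hc _ _ _

theorem BE_at2 (c : ℕ → ℂ) (N : ℕ) (j i : ℕ) (hi : i < N) :
    BE c N ((N+2)*j+1+i) = cj c N j i := by
  have h1 : ((N+2)*j+1+i) % (N+2) = i+1 := by
    rw [show (N+2)*j+1+i = (i+1) + (N+2)*j by ring, Nat.add_mul_mod_self_left]
    exact Nat.mod_eq_of_lt (by omega)
  have h2 : ((N+2)*j+1+i) / (N+2) = j := by
    rw [show (N+2)*j+1+i = (i+1) + (N+2)*j by ring, Nat.add_mul_div_left _ _ (by omega),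
      Nat.div_eq_of_lt (by omega)]
    omega
  have h3 : ¬ (i + 1 = 0) := by omega
  have h4 : ¬ (i + 1 = N + 1) := by omega
  simp only [BE, h1, h2, if_neg h3, if_neg h4]
  rfl

theorem cj_two (c : ℕ → ℂ) (N j : ℕ) : cj c N (j + 2) = cj c N j := by
  funext i
  unfold cj
  have : (j + 2) % 2 = j % 2 := by omega
  rw [this]

theorem BE_per (c : ℕ → ℂ) (N k : ℕ) : BE c N (k + 2 * (N + 2)) = BE c N k := by
  have h1 : (k + 2 * (N + 2)) % (N + 2) = k % (N + 2) := Nat.add_mul_mod_self_right _ _ _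
  have h2 : (k + 2 * (N + 2)) / (N + 2) = k / (N + 2) + 2 :=
    Nat.add_mul_div_right _ _ (by omega)
  simp only [BE, h1, h2, cj_two]

theorem BE_mod (c : ℕ → ℂ) (N k : ℕ) : BE c N (k % (2 * (N + 2))) = BE c N k := by
  have h : ∀ m r, BE c N (r + 2 * (N + 2) * m) = BE c N r := by
    intro m r
    induction m with
    | zero => simp
    | succ m ih =>
      rw [← ih, show r + 2 * (N + 2) * (m + 1) = (r + 2 * (N + 2) * m) + 2 * (N + 2) by ring,
        BE_per]
  conv_rhs => rw [← Nat.mod_add_div k (2 * (N + 2))]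
  rw [h]

theorem D_BE (z : ℂ) (c : ℕ → ℂ) (N j n : ℕ) (hn : n ≤ N + 1) :
    D z (BE c N) ((N+2)*j+1) n = phi z (cj c N j) n := by
  unfold D
  apply phi_congr
  intro i hi
  unfold sh
  exact BE_at2 c N j i (by omega)

theorem phi_cj (z : ℂ) (c : ℕ → ℂ) (N j : ℕ) :
    phi z (cj c N j) (N + 1) = phi z c (N + 1) := by
  unfold cj
  rcases Nat.mod_two_eq_zero_or_one j with h | h
  · simp only [h, if_true]
  · have h' : ¬ (j % 2 = 0) := by omega
    simp only [if_neg h']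
    cases N with
    | zero => simp
    | succ N =>
      have := phi_rev z c N (N + 2) le_rfl
      rw [Nat.sub_self, D_origin] at this
      rw [← this]
      congr 1

theorem cj_prod (z : ℂ) (c : ℕ → ℂ) (hc : PM c) (N : ℕ) (h0 : phi z c (N + 1) = 0) (j : ℕ) :
    ‖phi z (cj c N (j + 1)) N‖ * ‖phi z (cj c N j) N‖ = 1 := by
  have key : ‖phi z c N‖ * ‖phi z (fun i => c (N - 1 - i)) N‖ = 1 := by
    cases N with
    | zero => simp
    | succ N =>
      have h1 := phi_rev z c N (N + 1) (by omega)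
      have e1 : N + 2 - (N + 1) = 1 := by omega
      rw [e1] at h1
      have h2 := D_det z c 0 N
      rw [zero_add, D_origin, D_origin, h0, zero_mul, sub_zero] at h2
      have e2 : (fun i => c (N + 1 - 1 - i)) = fun i => c (N - i) := by
        funext i
        congr 1
      rw [e2, h1, ← norm_mul, h2]
      rcases prod_pm (c := fun i => c (0 + i)) (fun n => hc (0 + n)) (N + 1) with h | h
      · rw [h]; simp
      · rw [h]; simp
  have hcj : ∀ j, (cj c N j = c ∧ cj c N (j + 1) = fun i => c (N - 1 - i)) ∨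
      (cj c N j = (fun i => c (N - 1 - i)) ∧ cj c N (j + 1) = c) := by
    intro j
    rcases Nat.mod_two_eq_zero_or_one j with h | h
    · left
      have h' : ¬ ((j + 1) % 2 = 0) := by omega
      constructor
      · funext i
        simp [cj, h]
      · funext i
        simp [cj, h']
    · right
      have h' : (j + 1) % 2 = 0 := by omega
      constructor
      · funext i
        simp [cj, h]
      · funext i
        simp [cj, h']
  rcases hcj j with ⟨h1, h2⟩ | ⟨h1, h2⟩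
  · rw [h1, h2, mul_comm]
    exact key
  · rw [h1, h2]
    exact key

section sol

variable (z : ℂ) (c : ℕ → ℂ) (N : ℕ)

theorem x_zero (h0 : phi z c (N + 1) = 0) (j : ℕ) : xs z (BE c N) ((N+2)*j) = 0 := by
  induction j with
  | zero => rfl
  | succ j ih =>
    have h1 := sol_formula z (BE c N) (xs z (BE c N)) (xs_rec z (BE c N)) ((N+2)*j) N
    rw [ih, mul_zero, sub_zero, D_BE z c N j (N+1) le_rfl, phi_cj, h0, zero_mul] at h1
    rw [show (N+2)*(j+1) = (N+2)*j + 2 + N by ring]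
    exact h1

theorem x_last (h0 : phi z c (N + 1) = 0) (j : ℕ) :
    xs z (BE c N) ((N+2)*j+1+N) = phi z (cj c N j) N * xs z (BE c N) ((N+2)*j+1) := by
  cases N with
  | zero => simp
  | succ M =>
    have h1 := sol_formula z (BE c (M+1)) (xs z (BE c (M+1))) (xs_rec z (BE c (M+1)))
      ((M+1+2)*j) M
    rw [x_zero z c (M+1) h0 j, mul_zero, sub_zero, D_BE z c (M+1) j (M+1) (by omega)] at h1
    rw [show (M+1+2)*j+1+(M+1) = (M+1+2)*j + 2 + M by ring]
    exact h1

theorem x_norm1 (hc : PM c) (h0 : phi z c (N + 1) = 0) (j : ℕ) :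
    ‖xs z (BE c N) ((N+2)*(j+1)+1)‖ = ‖xs z (BE c N) ((N+2)*j+1+N)‖ := by
  have h1 := xs_rec z (BE c N) ((N+2)*j+1+N)
  rw [show (N+2)*j+1+N+1 = (N+2)*(j+1) by ring, x_zero z c N h0 (j+1), mul_zero, zero_sub] at h1
  rw [show (N+2)*(j+1)+1 = (N+2)*j+1+N+2 by ring, h1, norm_neg, norm_mul, (BE_pm hc N).norm,
    one_mul]

theorem x_norm (hc : PM c) (h0 : phi z c (N + 1) = 0) (j : ℕ) :
    ‖xs z (BE c N) ((N+2)*(2*j)+1)‖ = 1 := by
  induction j with
  | zero => simp [xs]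
  | succ j ih =>
    rw [show 2 * (j + 1) = (2 * j + 1) + 1 by ring, x_norm1 z c N hc h0 (2*j+1),
      x_last z c N h0 (2*j+1), norm_mul, x_norm1 z c N hc h0 (2*j), x_last z c N h0 (2*j), norm_mul,
      ← mul_assoc, cj_prod z c hc N h0 (2*j), one_mul]
    exact ih

end sol

/-- the infinite periodic sequence -/
noncomputable def PE (c : ℕ → ℂ) (N : ℕ) : ℤ → ℂ :=
  fun n => BE c N ((n % ((2 * (N + 2) : ℕ) : ℤ)).toNat)

theorem PE_pm {c : ℕ → ℂ} (hc : PM c) (N : ℕ) (n : ℤ) : PE c N n = 1 ∨ PE c N n = -1 :=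
  BE_pm hc N _

theorem PE_per (c : ℕ → ℂ) (N : ℕ) (n : ℤ) :
    PE c N (n + ((2 * (N + 2) : ℕ) : ℤ)) = PE c N n := by
  unfold PE
  rw [Int.add_emod_right]

theorem PE_at (c : ℕ → ℂ) (N i : ℕ) : PE c N (1 + (i : ℤ)) = sh 1 (BE c N) i := by
  have : ((1 + (i : ℤ)) % ((2 * (N + 2) : ℕ) : ℤ)).toNat = (1 + i) % (2 * (N + 2)) := by
    rw [show (1 + (i : ℤ)) = ((1 + i : ℕ) : ℤ) by push_cast; ring, ← Int.natCast_mod,
      Int.toNat_natCast]
  unfold PE sh
  rw [this, BE_mod]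

/-- residuals of a truncated solution vanish -/
theorem res_zero (z : ℂ) (B x : ℕ → ℂ) (hrec : ∀ k, x (k+2) = z * x (k+1) - B k * x k)
    (h0 : x 0 = 0) (n : ℕ) (hn : 1 ≤ n) (hx : x (n + 2) = 0) (k : ℕ) (hk : k < n + 1) :
    res z (sh 1 B) (fun i => if i ≤ n then x (i + 1) else 0) k = 0 := by
  cases k with
  | zero =>
    simp only [res]
    rw [if_pos (by omega), if_pos (by omega)]
    have h1 := hrec 0
    rw [h0, mul_zero, sub_zero] at h1
    simp only [zero_add] at h1 ⊢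
    rw [show 1 + 1 = 2 by rfl, h1]
    ring
  | succ m =>
    simp only [res, sh]
    rw [if_pos (by omega : m ≤ n), if_pos (by omega : m + 1 ≤ n)]
    have h1 : (if m + 2 ≤ n then x (m + 2 + 1) else 0) = x (m + 2 + 1) := by
      by_cases h : m + 2 ≤ n
      · rw [if_pos h]
      · rw [if_neg h, show m + 2 + 1 = n + 2 by omega, hx]
    rw [h1]
    have h2 := hrec (m + 1)
    rw [show m + 1 + 2 = m + 2 + 1 by ring] at h2
    rw [h2, add_comm 1 m]
    ring

/-- lower bound for the norm -/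
theorem low_bound (x : ℕ → ℂ) (N J n : ℕ) (hn : n + 2 = (N + 2) * (2 * (J + 1)))
    (hx : ∀ j, ‖x ((N+2)*(2*j)+1)‖ = 1) :
    ((J + 1 : ℕ) : ℝ) ≤ ∑ k ∈ range (n + 1), ‖(if k ≤ n then x (k + 1) else 0)‖ ^ 2 := by
  have hinj : Set.InjOn (fun j : ℕ => (N + 2) * (2 * j)) (range (J + 1) : Set ℕ) := by
    intro i _ j _ hij
    have hij' : (N + 2) * (2 * i) = (N + 2) * (2 * j) := hij
    have := Nat.eq_of_mul_eq_mul_left (by omega) hij'
    omega
  have hsub : (range (J + 1)).image (fun j : ℕ => (N + 2) * (2 * j)) ⊆ range (n + 1) := by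
    intro k hk
    rw [mem_image] at hk
    obtain ⟨j, hj, rfl⟩ := hk
    rw [mem_range] at hj ⊢
    have h1 : (N + 2) * (2 * j) ≤ (N + 2) * (2 * J) := Nat.mul_le_mul_left _ (by omega)
    have h2 : (N + 2) * (2 * (J + 1)) = (N + 2) * (2 * J) + 2 * (N + 2) := by ring
    omega
  calc ((J + 1 : ℕ) : ℝ) = ∑ j ∈ range (J + 1), (1 : ℝ) := by simp
    _ = ∑ j ∈ range (J + 1),
        ‖(if (N + 2) * (2 * j) ≤ n then x ((N + 2) * (2 * j) + 1) else 0)‖ ^ 2 := by
        refine sum_congr rfl fun j hj => ?_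
        have hj' := mem_range.1 (hsub (mem_image.2 ⟨j, hj, rfl⟩))
        rw [if_pos (by omega), hx j]
        norm_num
    _ = ∑ k ∈ (range (J + 1)).image (fun j : ℕ => (N + 2) * (2 * j)),
        ‖(if k ≤ n then x (k + 1) else 0)‖ ^ 2 :=
        (sum_image (f := fun k => ‖(if k ≤ n then x (k + 1) else 0)‖ ^ 2) hinj).symm
    _ ≤ _ := sum_le_sum_of_subset_of_nonneg hsub fun _ _ _ => by positivity

theorem x_norm_end (z : ℂ) (c : ℕ → ℂ) (N : ℕ) (hc : PM c) (h0 : phi z c (N + 1) = 0) (J n : ℕ)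
    (hn : n + 2 = (N + 2) * (2 * (J + 1))) : ‖xs z (BE c N) (n + 1)‖ = 1 := by
  have h1 := x_norm1 z c N hc h0 (2 * J + 1)
  have h2 := x_norm z c N hc h0 (J + 1)
  rw [show 2 * (J + 1) = 2 * J + 1 + 1 by ring] at h2
  rw [h2] at h1
  rw [h1]
  congr 2
  have : (N + 2) * (2 * (J + 1)) = (N + 2) * (2 * J + 1) + (N + 2) := by ring
  omega

theorem not_bij (z : ℂ) (c : ℕ → ℂ) (N : ℕ) (hc : PM c) (h0 : phi z c (N + 1) = 0) :
    ¬ Bij z (PE c N) := by
  intro hB
  obtain ⟨C, hC, hb⟩ := hB.bound'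
  obtain ⟨J, hJ⟩ := exists_nat_gt (2 * C ^ 2)
  have hJ' : (2 * C ^ 2 : ℝ) < ((J + 1 : ℕ) : ℝ) := by
    push_cast
    linarith
  obtain ⟨n, hn⟩ : ∃ n, n + 2 = (N + 2) * (2 * (J + 1)) := by
    refine ⟨(N + 2) * (2 * (J + 1)) - 2, ?_⟩
    have : 2 ≤ (N + 2) * (2 * (J + 1)) := by nlinarith
    omega
  have hn1 : 1 ≤ n := by
    have : 4 ≤ (N + 2) * (2 * (J + 1)) := by nlinarith
    omega
  have hlow := low_bound (xs z (BE c N)) N J n hn (x_norm z c N hc h0)
  have hend := x_norm_end z c N hc h0 J n hn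
  have hst : ‖xs z (BE c N) 1‖ = 1 := by
    have := x_norm z c N hc h0 0
    rwa [mul_zero, mul_zero, zero_add] at this
  have hx2 : xs z (BE c N) (n + 2) = 0 := by
    rw [hn]
    exact x_zero z c N h0 _
  have hrec := xs_rec z (BE c N)
  have hx0 : xs z (BE c N) 0 = 0 := rfl
  generalize xs z (BE c N) = x at hlow hend hst hx2 hrec hx0
  have hw := window_bound hb 1 n (sh 1 (BE c N)) (fun i => if i ≤ n then x (i + 1) else 0)
    ((BE_pm hc N).sh 1) (fun i _ => PE_at c N i) (fun i hi => if_neg (by omega))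
  have hres : ∑ k ∈ range (n + 1),
      ‖res z (sh 1 (BE c N)) (fun i => if i ≤ n then x (i + 1) else 0) k‖ ^ 2 = 0 :=
    sum_eq_zero (fun k hk => by
      rw [res_zero z (BE c N) x hrec hx0 n hn1 hx2 k (mem_range.1 hk), norm_zero,
        zero_pow two_ne_zero])
  rw [hres, if_pos (Nat.zero_le n), if_pos (le_refl n), zero_add, zero_add, hst, hend] at hw
  have h3 := hlow.trans hw
  nlinarith

theorem partE : Pool.Agent.W343.FZH.PartE := by
  rintro z ⟨c, N, hc, h0⟩
  exact ⟨PE c N, PE_pm hc N, ⟨2 * (N + 2), by omega, PE_per c N⟩, not_bij z c N hc h0⟩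

end Pool.Agent.W724.FZH
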